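import Pool.Agent.H295R2.Beu.Defs
import Pool.Agent.Helper625.Planch

/-!
# Weighted L2 bound of the remainder from the bound of its transform (task B5b of helper295)
-/

set_option autoImplicit false

open MeasureTheory Filter Topology Set
open scoped FourierTransform

namespace Pool.Agent.H965R3.RL2

open Pool.Agent.H295R2.Beu

theorem image_exp : Real.exp '' Ioi 0 = Ioi 1 := by
  ext y
  constructor
  · rintro ⟨x, hx, rfl⟩
    exact Real.one_lt_exp_iff.2 hx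
  · intro hy
    have hy0 : (0 : ℝ) < y := lt_trans one_pos hy
    exact ⟨Real.log y, Real.log_pos hy, Real.exp_log hy0⟩

theorem integral_exp_sub {E : Type*} [NormedAddCommGroup E] [NormedSpace ℝ E] (F : ℝ → E) :
    ∫ y in Ioi (1:ℝ), F y = ∫ x in Ioi (0:ℝ), Real.exp x • F (Real.exp x) := by
  rw [← image_exp, integral_image_eq_integral_abs_deriv_smul measurableSet_Ioi
    (fun x _ => (Real.hasDerivAt_exp x).hasDerivWithinAt) Real.exp_injective.injOn]
  simp only [abs_of_pos (Real.exp_pos _)]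

theorem RR_meas (N : ℕ) : Measurable (RR N) := by
  unfold RR
  fun_prop

/-- the function to be transformed -/
noncomputable def g (N : ℕ) (σ : ℝ) : ℝ → ℂ :=
  (Ioi (0:ℝ)).indicator (fun x => ((RR N (Real.exp x) * Real.exp (-σ * x) : ℝ) : ℂ))

theorem g_meas (N : ℕ) (σ : ℝ) : Measurable (g N σ) := by
  unfold g
  apply Measurable.indicator _ measurableSet_Ioi
  have := RR_meas N
  fun_prop

theorem g_bound (h2 : RBound) (N : ℕ) (hN : 1 ≤ N) (σ x : ℝ) :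
    ‖g N σ x‖ ≤ (Ioi (0:ℝ)).indicator (fun x => 3 * (N:ℝ) ^ 2 * Real.exp (-σ * x)) x := by
  unfold g
  by_cases hx : x ∈ Ioi (0:ℝ)
  · rw [indicator_of_mem hx, indicator_of_mem hx, Complex.norm_real, Real.norm_eq_abs, abs_mul,
      abs_of_pos (Real.exp_pos _)]
    exact mul_le_mul_of_nonneg_right (h2 N hN _) (Real.exp_pos _).le
  · rw [indicator_of_notMem hx, indicator_of_notMem hx, norm_zero]

theorem g_int (h2 : RBound) (N : ℕ) (hN : 1 ≤ N) (σ : ℝ) (hσ : 0 < σ) : Integrable (g N σ) := by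
  have h1 : Integrable ((Ioi (0:ℝ)).indicator (fun x => 3 * (N:ℝ) ^ 2 * Real.exp (-σ * x))) := by
    rw [integrable_indicator_iff measurableSet_Ioi]
    exact (exp_neg_integrableOn_Ioi 0 hσ).const_mul _
  exact h1.mono' (g_meas N σ).aestronglyMeasurable (ae_of_all _ (g_bound h2 N hN σ))

theorem g_L2 (h2 : RBound) (N : ℕ) (hN : 1 ≤ N) (σ : ℝ) (hσ : 0 < σ) : MemLp (g N σ) 2 := by
  have hb : ∀ x, ‖g N σ x‖ ≤ 3 * (N:ℝ) ^ 2 := by
    intro x
    refine (g_bound h2 N hN σ x).trans ?_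
    by_cases hx : x ∈ Ioi (0:ℝ)
    · rw [indicator_of_mem hx]
      have : Real.exp (-σ * x) ≤ 1 := by
        rw [Real.exp_le_one_iff]
        have : 0 < x := hx
        nlinarith
      have h3 : (0:ℝ) ≤ 3 * (N:ℝ) ^ 2 := by positivity
      nlinarith
    · rw [indicator_of_notMem hx]
      positivity
  have hi := (g_int h2 N hN σ hσ)
  rw [memLp_two_iff_integrable_sq_norm (g_meas N σ).aestronglyMeasurable]
  have h4 : Integrable (fun x => 3 * (N:ℝ) ^ 2 * ‖g N σ x‖) := hi.norm.const_mul _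
  refine h4.mono' ((g_meas N σ).norm.pow_const 2).aestronglyMeasurable (ae_of_all _ fun x => ?_)
  rw [Real.norm_eq_abs, abs_of_nonneg (by positivity), pow_two]
  exact mul_le_mul_of_nonneg_right (hb x) (norm_nonneg _)

theorem g_fourier (N : ℕ) (σ ξ : ℝ) :
    𝓕 (g N σ) ξ = ∫ y in Ioi (1:ℝ), (RR N y : ℂ) *
      (y : ℂ) ^ (-((σ:ℂ) + ((2 * Real.pi * ξ : ℝ) : ℂ) * Complex.I) - 1) := by
  rw [Real.fourier_real_eq_integral_exp_smul, integral_exp_sub]
  rw [← integral_indicator measurableSet_Ioi]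
  apply integral_congr_ae
  refine ae_of_all _ fun x => ?_
  unfold g
  by_cases hx : x ∈ Ioi (0:ℝ)
  · simp only [indicator_of_mem hx]
    have hy : ((Real.exp x : ℝ) : ℂ) ≠ 0 := by
      exact_mod_cast (Real.exp_pos x).ne'
    rw [Complex.cpow_def_of_ne_zero hy, ← Complex.ofReal_log (Real.exp_pos x).le, Real.log_exp]
    rw [smul_eq_mul, Complex.real_smul]
    push_cast
    rw [show (Complex.exp (x:ℂ)) * ((RR N (Real.exp x) : ℂ) *
      Complex.exp ((x:ℂ) * (-((σ:ℂ) + 2 * (Real.pi:ℂ) * (ξ:ℂ) * Complex.I) - 1))) =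
      (RR N (Real.exp x) : ℂ) * (Complex.exp (x:ℂ) *
      Complex.exp ((x:ℂ) * (-((σ:ℂ) + 2 * (Real.pi:ℂ) * (ξ:ℂ) * Complex.I) - 1))) by ring,
      ← Complex.exp_add,
      show Complex.exp (-2 * (Real.pi:ℂ) * (x:ℂ) * (ξ:ℂ) * Complex.I) *
        ((RR N (Real.exp x) : ℂ) * Complex.exp (-(σ:ℂ) * (x:ℂ))) =
        (RR N (Real.exp x) : ℂ) * (Complex.exp (-2 * (Real.pi:ℂ) * (x:ℂ) * (ξ:ℂ) * Complex.I) *
         Complex.exp (-(σ:ℂ) * (x:ℂ))) by ring, ← Complex.exp_add]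
    congr 2
    ring
  · simp only [indicator_of_notMem hx, smul_zero]

theorem g_norm (N : ℕ) (σ : ℝ) :
    ∫ x, ‖g N σ x‖ ^ 2 = ∫ y in Ioi (1:ℝ), RR N y ^ 2 * y ^ (-2 * σ - 1) := by
  rw [integral_exp_sub, ← integral_indicator measurableSet_Ioi]
  apply integral_congr_ae
  refine ae_of_all _ fun x => ?_
  unfold g
  by_cases hx : x ∈ Ioi (0:ℝ)
  · simp only [indicator_of_mem hx]
    rw [Complex.norm_real, Real.norm_eq_abs, sq_abs, mul_pow, smul_eq_mul, ← Real.exp_mul,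
      ← Real.exp_nat_mul]
    rw [show Real.exp x * (RR N (Real.exp x) ^ 2 * Real.exp (x * (-2 * σ - 1))) =
      RR N (Real.exp x) ^ 2 * (Real.exp x * Real.exp (x * (-2 * σ - 1))) by ring, ← Real.exp_add]
    congr 2
    push_cast
    ring
  · simp only [indicator_of_notMem hx, norm_zero]
    norm_num

theorem rL2 (h1 : HatL2) (h2 : RBound) : RL2 := by
  intro θ σ δ hθ hθσ hσ1 hzf hδ
  obtain ⟨C, hC, hb⟩ := h1 θ σ δ hθ hθσ hσ1 hzf hδ
  refine ⟨C, hC, fun N hN => ?_⟩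
  have hσ0 : 0 < σ := by linarith
  have hp := (Pool.Agent.Helper625.Planch.plancherel (g N σ) (g_int h2 N hN σ hσ0)
    (g_L2 h2 N hN σ hσ0)).2
  rw [← g_norm, ← hp]
  have h3 : (fun ξ : ℝ => ‖𝓕 (g N σ) ξ‖ ^ 2) = fun ξ : ℝ => (fun t : ℝ =>
      ‖∫ y in Ioi (1:ℝ), (RR N y : ℂ) * (y : ℂ) ^ (-((σ:ℂ) + t * Complex.I) - 1)‖ ^ 2)
        ((2 * Real.pi) * ξ) := by
    funext ξ
    rw [g_fourier]
  rw [h3]
  refine (le_of_eq (Measure.integral_comp_mul_left (fun t : ℝ =>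
    ‖∫ y in Ioi (1:ℝ), (RR N y : ℂ) * (y : ℂ) ^ (-((σ:ℂ) + t * Complex.I) - 1)‖ ^ 2)
      (2 * Real.pi))).trans ?_
  have hpi : |(2 * Real.pi)⁻¹| ≤ 1 := by
    have := Real.pi_gt_three
    rw [abs_of_pos (by positivity)]
    apply inv_le_one_of_one_le₀
    linarith
  rw [smul_eq_mul]
  have h4 : 0 ≤ ∫ t : ℝ, ‖∫ y in Ioi (1:ℝ), (RR N y : ℂ) *
      (y : ℂ) ^ (-((σ:ℂ) + t * Complex.I) - 1)‖ ^ 2 :=
    integral_nonneg fun t => by positivity
  exact (mul_le_of_le_one_left h4 hpi).trans (hb N hN)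

end Pool.Agent.H965R3.RL2
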