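import Pool.Agent.H74R2.WT.Stmts

/-! Task O: local finiteness of monohedral tilings. (helper965) -/

set_option autoImplicit false

open MeasureTheory Set

namespace H74R2.WT

private lemma o_interior (g : ℂ ≃ᵢ ℂ) (P : Set ℂ) :
    interior ((fun z => g z) '' P) = (fun z => g z) '' interior P :=
  (g.toHomeomorph.image_interior P).symm

private lemma o_closure (g : ℂ ≃ᵢ ℂ) (P : Set ℂ) :
    closure ((fun z => g z) '' P) = (fun z => g z) '' closure P :=
  (g.toHomeomorph.image_closure P).symm

private lemma o_region {P : Set ℂ} (hP : Region P) (g : ℂ ≃ᵢ ℂ) :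
    Region ((fun z => g z) '' P) where
  cpt := hP.cpt.image g.continuous
  ne := by
    rw [o_interior]
    exact hP.ne.image _
  reg := by
    rw [o_interior, o_closure]
    exact image_mono hP.reg

/-- Task O -/
theorem t_O : T_O := by
  intro P T hP hT
  have hreg : ∀ A ∈ T, Region A := by
    intro A hA
    obtain ⟨g, rfl⟩ := hT.tile A hA
    exact o_region hP g
  obtain ⟨D, hD⟩ := Metric.isBounded_iff.1 hP.cpt.isBounded
  have hdiam : ∀ A ∈ T, ∀ x ∈ A, ∀ y ∈ A, dist x y ≤ D := by
    intro A hA x hx y hy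
    obtain ⟨g, rfl⟩ := hT.tile A hA
    obtain ⟨x', hx', rfl⟩ := hx
    obtain ⟨y', hy', rfl⟩ := hy
    show dist (g x') (g y') ≤ D
    rw [g.dist_eq]
    exact hD hx' hy'
  obtain ⟨p, hp⟩ := hP.ne
  obtain ⟨δ, hδ, hball⟩ := Metric.isOpen_iff.1 isOpen_interior p hp
  have hcen : ∀ A ∈ T, ∃ c : ℂ, Metric.ball c δ ⊆ interior A := by
    intro A hA
    obtain ⟨g, rfl⟩ := hT.tile A hA
    refine ⟨g p, ?_⟩
    rw [o_interior]
    intro y hy
    refine ⟨g.symm y, hball ?_, g.apply_symm_apply y⟩
    rw [Metric.mem_ball] at hy ⊢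
    rw [← g.dist_eq, g.apply_symm_apply]
    exact hy
  choose! c hc using hcen
  refine ⟨?_, ?_, ?_, hreg, D, hdiam⟩
  · have h0 : (0 : ℂ) ∈ ⋃₀ T := by
      rw [hT.cover]
      exact mem_univ _
    obtain ⟨A, hA, -⟩ := h0
    exact ⟨A, hA⟩
  · have hdis : T.PairwiseDisjoint (fun A => interior A) := hT.disj
    exact hdis.countable_of_isOpen (fun A _ => isOpen_interior) (fun A hA => (hreg A hA).ne)
  · intro R
    set F : Set (Set ℂ) := {A ∈ T | (A ∩ Metric.closedBall 0 R).Nonempty} with hF
    have hv : 0 < volume (Metric.ball (0 : ℂ) δ) := Metric.measure_ball_pos _ _ hδ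
    have hfin := Measure.finite_const_le_meas_of_disjoint_iUnion (ι := F) volume hv
      (As := fun A => Metric.ball (c A.1) δ) (fun A => Metric.isOpen_ball.measurableSet) ?_ ?_
    · have huniv : {A : F | volume (Metric.ball (0 : ℂ) δ) ≤ volume (Metric.ball (c A.1) δ)} =
          univ := by
        rw [eq_univ_iff_forall]
        intro A
        rw [mem_ofPred_eq, Measure.addHaar_ball_center volume (c A.1) δ]
      rw [huniv] at hfin
      have : Finite F := finite_univ_iff.1 hfin
      exact toFinite F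
    · intro A B hAB
      have h1 : A.1 ≠ B.1 := fun h => hAB (Subtype.ext h)
      exact (hT.disj A.2.1 B.2.1 h1).mono (hc A.1 A.2.1) (hc B.1 B.2.1)
    · refine ne_top_of_le_ne_top
        (measure_closedBall_lt_top (μ := volume) (x := (0 : ℂ)) (r := R + D)).ne (measure_mono ?_)
      refine iUnion_subset fun A => ?_
      intro y hy
      obtain ⟨z, hz1, hz2⟩ := A.2.2
      have hy' : y ∈ A.1 := interior_subset (hc A.1 A.2.1 hy)
      have h1 := hdiam A.1 A.2.1 y hy' z hz1
      rw [Metric.mem_closedBall] at hz2 ⊢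
      linarith [dist_triangle y z 0]

end H74R2.WT
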